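import Mathlib

open Polynomial

namespace Pool.Agent.Results.MP_ce47b3_al.NotFree

/-- The variety `V`: three multilinear identities with integer coefficients. -/
def InV (A : Type) [NonUnitalNonAssocRing A] : Prop :=
  (∀ x y z w : A, (x * y) * (z * w) = 0) ∧
  (∀ a b u v : A, (a * (u * v)) * b = 0) ∧
  (∀ a b u v : A, a * ((u * v) * b) = 0)

/-- `A` lies in `V` and is the free object of `V` on `ι : X → A`. -/
def IsFreeOn (k : Type) [CommRing k] (A : Type) [NonUnitalNonAssocRing A] [Module k A]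
    {X : Type} (ι : X → A) : Prop :=
  InV A ∧ ∀ (A' : Type) [NonUnitalNonAssocRing A'] [Module k A'] [IsScalarTower k A' A']
    [SMulCommClass k A' A'], InV A' → ∀ g : X → A', ∃! φ : A →ₙₐ[k] A', ∀ x, φ (ι x) = g x

/-- `A` is a `V`-free `k`-algebra. -/
def IsVFree (k : Type) [CommRing k] (A : Type) [NonUnitalNonAssocRing A] [Module k A] : Prop :=
  ∃ (X : Type) (ι : X → A), IsFreeOn k A ι

section Construction

variable (k : Type) [CommRing k] (X : Type)

/-- The congruence of all consequences of the identities of `V`. -/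
def con : RingCon (FreeNonUnitalNonAssocAlgebra k X) where
  r a b := ∀ (A : Type) [NonUnitalNonAssocRing A] [Module k A] [IsScalarTower k A A]
    [SMulCommClass k A A], InV A → ∀ φ : FreeNonUnitalNonAssocAlgebra k X →ₙₐ[k] A, φ a = φ b
  iseqv := ⟨fun _ _ _ _ _ _ _ _ => rfl, fun h A _ _ _ _ hA φ => (h A hA φ).symm,
    fun h1 h2 A _ _ _ _ hA φ => (h1 A hA φ).trans (h2 A hA φ)⟩
  mul' := fun h1 h2 A _ _ _ _ hA φ => by rw [map_mul, map_mul, h1 A hA φ, h2 A hA φ]
  add' := fun h1 h2 A _ _ _ _ hA φ => by rw [map_add, map_add, h1 A hA φ, h2 A hA φ]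

/-- The free algebra of `V` on `X`. -/
def FV : Type := (con k X).Quotient

noncomputable instance : NonUnitalNonAssocRing (FV k X) :=
  inferInstanceAs (NonUnitalNonAssocRing (con k X).Quotient)

/-- The projection, as an additive map. -/
noncomputable def mk : FreeNonUnitalNonAssocAlgebra k X →+ FV k X where
  toFun a := (con k X).toQuotient a
  map_zero' := rfl
  map_add' _ _ := rfl

lemma mk_mul (a b : FreeNonUnitalNonAssocAlgebra k X) : mk k X (a * b) = mk k X a * mk k X b := rfl

lemma mk_surj : Function.Surjective (mk k X) := fun q => Quotient.inductionOn' q fun a => ⟨a, rfl⟩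

lemma mk_eq {a b : FreeNonUnitalNonAssocAlgebra k X} : mk k X a = mk k X b ↔ con k X a b :=
  (con k X).eq

noncomputable instance : SMul k (FV k X) :=
  ⟨fun c => Quotient.map' (fun a => c • a) (fun a b h A _ _ _ _ hA φ => by
    rw [map_smul, map_smul, h A hA φ])⟩

lemma mk_smul (c : k) (a : FreeNonUnitalNonAssocAlgebra k X) : mk k X (c • a) = c • mk k X a := rfl

noncomputable instance : Module k (FV k X) :=
  Function.Surjective.module k (mk k X) (mk_surj k X) (mk_smul k X)

instance : IsScalarTower k (FV k X) (FV k X) := ⟨fun c a b => by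
  obtain ⟨a, rfl⟩ := mk_surj k X a
  obtain ⟨b, rfl⟩ := mk_surj k X b
  rw [smul_eq_mul, smul_eq_mul, ← mk_smul, ← mk_mul, ← mk_mul, ← mk_smul, smul_mul_assoc]⟩

instance : SMulCommClass k (FV k X) (FV k X) := ⟨fun c a b => by
  obtain ⟨a, rfl⟩ := mk_surj k X a
  obtain ⟨b, rfl⟩ := mk_surj k X b
  rw [smul_eq_mul, smul_eq_mul, ← mk_smul, ← mk_mul, ← mk_mul, ← mk_smul, mul_smul_comm]⟩

/-- The projection, as an algebra map. -/
noncomputable def mkA : FreeNonUnitalNonAssocAlgebra k X →ₙₐ[k] FV k X where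
  toFun := mk k X
  map_smul' := mk_smul k X
  map_zero' := map_zero _
  map_add' := map_add _
  map_mul' := mk_mul k X

lemma fv_inV : InV (FV k X) := by
  refine ⟨fun x y z w => ?_, fun a b u v => ?_, fun a b u v => ?_⟩
  · obtain ⟨x, rfl⟩ := mk_surj k X x
    obtain ⟨y, rfl⟩ := mk_surj k X y
    obtain ⟨z, rfl⟩ := mk_surj k X z
    obtain ⟨w, rfl⟩ := mk_surj k X w
    rw [← mk_mul, ← mk_mul, ← mk_mul, ← map_zero (mk k X), mk_eq]
    intro A _ _ _ _ hA φ
    simp only [map_mul, map_zero]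
    exact hA.1 _ _ _ _
  · obtain ⟨a, rfl⟩ := mk_surj k X a
    obtain ⟨b, rfl⟩ := mk_surj k X b
    obtain ⟨u, rfl⟩ := mk_surj k X u
    obtain ⟨v, rfl⟩ := mk_surj k X v
    simp only [← mk_mul]
    rw [← map_zero (mk k X), mk_eq]
    intro A _ _ _ _ hA φ
    simp only [map_mul, map_zero]
    exact hA.2.1 _ _ _ _
  · obtain ⟨a, rfl⟩ := mk_surj k X a
    obtain ⟨b, rfl⟩ := mk_surj k X b
    obtain ⟨u, rfl⟩ := mk_surj k X u
    obtain ⟨v, rfl⟩ := mk_surj k X v
    simp only [← mk_mul]
    rw [← map_zero (mk k X), mk_eq]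
    intro A _ _ _ _ hA φ
    simp only [map_mul, map_zero]
    exact hA.2.2 _ _ _ _

lemma fv_free : IsFreeOn k (FV k X) (fun x => mk k X (FreeNonUnitalNonAssocAlgebra.of k x)) := by
  refine ⟨fv_inV k X, fun A' _ _ _ _ hA g => ?_⟩
  let ψ := FreeNonUnitalNonAssocAlgebra.lift k g
  let f : FV k X → A' := Quotient.lift ψ (fun a b h => h A' hA ψ)
  have hf : ∀ a, f (mk k X a) = ψ a := fun a => rfl
  let φ : FV k X →ₙₐ[k] A' :=
    { toFun := f
      map_smul' := fun c a => by
        obtain ⟨a, rfl⟩ := mk_surj k X a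
        rw [← mk_smul, hf, hf, map_smul]
        rfl
      map_zero' := by rw [← map_zero (mk k X), hf, map_zero]
      map_add' := fun a b => by
        obtain ⟨a, rfl⟩ := mk_surj k X a
        obtain ⟨b, rfl⟩ := mk_surj k X b
        rw [← map_add, hf, hf, hf, map_add]
      map_mul' := fun a b => by
        obtain ⟨a, rfl⟩ := mk_surj k X a
        obtain ⟨b, rfl⟩ := mk_surj k X b
        rw [← mk_mul, hf, hf, hf, map_mul] }
  refine ⟨φ, fun x => ?_, fun φ' h' => ?_⟩
  · show f (mk k X _) = _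
    rw [hf]
    simp [ψ]
  · have : φ'.comp (mkA k X) = ψ := by
      apply FreeNonUnitalNonAssocAlgebra.hom_ext
      intro x
      simp only [ψ, FreeNonUnitalNonAssocAlgebra.lift_of_apply]
      exact h' x
    ext a
    obtain ⟨a, rfl⟩ := mk_surj k X a
    show φ' (mk k X a) = f (mk k X a)
    rw [hf, ← this]
    rfl

end Construction

section General

variable {k : Type} [CommRing k]

lemma inV_sub {A : Type} [NonUnitalNonAssocRing A] [Module k A] (hA : InV A)
    (S : NonUnitalSubalgebra k A) : InV S := by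
  refine ⟨fun x y z w => Subtype.ext ?_, fun a b u v => Subtype.ext ?_,
    fun a b u v => Subtype.ext ?_⟩
  · simpa using hA.1 (x : A) y z w
  · simpa using hA.2.1 (a : A) b u v
  · simpa using hA.2.2 (a : A) b u v

/-- A free algebra is generated by its free generators. -/
lemma gen_top {A : Type} [NonUnitalNonAssocRing A] [Module k A] [IsScalarTower k A A]
    [SMulCommClass k A A] {X : Type} {ι : X → A} (h : IsFreeOn k A ι)
    (S : NonUnitalSubalgebra k A) (hS : ∀ x, ι x ∈ S) (a : A) : a ∈ S := by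
  obtain ⟨φ, hφ, -⟩ := h.2 S (inV_sub h.1 S) (fun x => ⟨ι x, hS x⟩)
  obtain ⟨ψ, -, hψ⟩ := h.2 A h.1 ι
  have h1 := hψ ((NonUnitalSubalgebraClass.subtype S).comp φ) (fun x => by simp [hφ])
  have h2 := hψ (NonUnitalAlgHom.id k A) (fun x => rfl)
  have : ((NonUnitalSubalgebraClass.subtype S).comp φ) a = a := by
    rw [h1, ← h2]
    rfl
  rw [← this]
  exact (φ a).2

/-- The square `A·A` as an additive subgroup. -/
def Sq (A : Type) [NonUnitalNonAssocRing A] : AddSubgroup A :=
  AddSubgroup.closure {z | ∃ a b : A, z = a * b}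

variable {A : Type} [NonUnitalNonAssocRing A]

lemma mul_mem_sq (a b : A) : a * b ∈ Sq A := AddSubgroup.subset_closure ⟨a, b, rfl⟩

lemma sq_mul_sq (hA : InV A) {w w' : A} (hw : w ∈ Sq A) (hw' : w' ∈ Sq A) : w * w' = 0 := by
  induction hw using AddSubgroup.closure_induction with
  | mem z hz =>
    obtain ⟨a, b, rfl⟩ := hz
    induction hw' using AddSubgroup.closure_induction with
    | mem z hz =>
      obtain ⟨c, d, rfl⟩ := hz
      exact hA.1 _ _ _ _
    | zero => simp
    | add x y _ _ hx hy => rw [mul_add, hx, hy, add_zero]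
    | neg x _ hx => rw [mul_neg, hx, neg_zero]
  | zero => simp
  | add x y _ _ hx hy => rw [add_mul, hx, hy, add_zero]
  | neg x _ hx => rw [neg_mul, hx, neg_zero]

lemma comm_sq (hA : InV A) (a b : A) {w : A} (hw : w ∈ Sq A) : (a * w) * b = a * (w * b) := by
  induction hw using AddSubgroup.closure_induction with
  | mem z hz =>
    obtain ⟨c, d, rfl⟩ := hz
    rw [hA.2.1, hA.2.2]
  | zero => simp
  | add x y _ _ hx hy => simp only [mul_add, add_mul, hx, hy]
  | neg x _ hx => simp only [mul_neg, neg_mul, hx]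

lemma cubic_sq (hA : InV A) (a b c : A) {w : A} (hw : w ∈ Sq A) :
    c * ((a * w) * b) + ((a * w) * b) * c = 0 := by
  induction hw using AddSubgroup.closure_induction with
  | mem z hz =>
    obtain ⟨d, e, rfl⟩ := hz
    rw [hA.2.1]
    simp
  | zero => simp
  | add x y _ _ hx hy =>
    simp only [mul_add, add_mul]
    rw [add_add_add_comm, hx, hy, add_zero]
  | neg x _ hx =>
    simp only [mul_neg, neg_mul]
    rw [← neg_add, hx, neg_zero]

/-- `seq x w j = R^j (R (L + R) w)` with `L`, `R` the multiplications by `x`. -/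
def seq (x w : A) : ℕ → A
  | 0 => (x * w + w * x) * x
  | j + 1 => seq x w j * x

lemma seq_mem (x w : A) (j : ℕ) : seq x w j ∈ Sq A := by
  cases j <;> exact mul_mem_sq _ _

lemma x_seq (hA : InV A) (x : A) {w : A} (hw : w ∈ Sq A) (j : ℕ) : x * seq x w j = 0 := by
  induction j with
  | zero =>
    have h1 := cubic_sq hA x x x hw
    have h2 := comm_sq hA x x hw
    have h3 := comm_sq hA x x (mul_mem_sq w x)
    simp only [seq, add_mul, mul_add]
    rw [← h3, ← h2]
    exact h1
  | succ j ih => rw [seq, ← comm_sq hA x x (seq_mem x w j), ih, zero_mul]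

/-- The correction of the first generator. -/
def uu (x y : A) : A := - seq x (x * x) 3 + seq x (y * x) 0 + seq x (y * x) 1

/-- The image of the second generator. -/
def vv (x y : A) : A :=
  seq x (x * x) 0 - seq x (x * x) 1 + seq x (x * x) 2 - seq x (x * x) 3 + seq x (x * x) 4
    - seq x (x * x) 5 + seq x (y * x) 3

lemma uu_mem (x y : A) : uu x y ∈ Sq A := by
  unfold uu
  exact add_mem (add_mem (neg_mem (seq_mem _ _ _)) (seq_mem _ _ _)) (seq_mem _ _ _)

lemma vv_mem (x y : A) : vv x y ∈ Sq A := by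
  unfold vv
  exact add_mem (sub_mem (add_mem (sub_mem (add_mem (sub_mem (seq_mem _ _ _) (seq_mem _ _ _))
    (seq_mem _ _ _)) (seq_mem _ _ _)) (seq_mem _ _ _)) (seq_mem _ _ _)) (seq_mem _ _ _)

lemma x_uu (hA : InV A) (x y : A) : x * uu x y = 0 := by
  simp [uu, mul_add, x_seq hA x (mul_mem_sq _ _)]

lemma x_vv (hA : InV A) (x y : A) : x * vv x y = 0 := by
  simp [vv, mul_add, mul_sub, x_seq hA x (mul_mem_sq _ _)]

variable [Module k A]

lemma map_sq {B : Type} [NonUnitalNonAssocRing B] [Module k B] (π : A →ₙₐ[k] B) {w : A}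
    (hw : w ∈ Sq A) : π w ∈ Sq B := by
  induction hw using AddSubgroup.closure_induction with
  | mem z hz =>
    obtain ⟨a, b, rfl⟩ := hz
    rw [map_mul]
    exact mul_mem_sq _ _
  | zero => simp
  | add x y _ _ hx hy => rw [map_add]; exact add_mem hx hy
  | neg x _ hx => rw [map_neg]; exact neg_mem hx

lemma map_seq {B : Type} [NonUnitalNonAssocRing B] [Module k B] (π : A →ₙₐ[k] B) (x w : A)
    (j : ℕ) : π (seq x w j) = seq (π x) (π w) j := by
  induction j with
  | zero => simp [seq]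
  | succ j ih => simp [seq, ih]

omit [Module k A] in
lemma seq_shift (hA : InV A) (x : A) {u w : A} (hu : u ∈ Sq A) (hw : w ∈ Sq A) (j : ℕ) :
    seq (x + u) w j = seq x w j := by
  induction j with
  | zero =>
    simp only [seq]
    rw [add_mul x u w, mul_add w x u, sq_mul_sq hA hu hw, sq_mul_sq hA hw hu, add_zero, add_zero,
      mul_add _ x u, sq_mul_sq hA (add_mem (mul_mem_sq _ _) (mul_mem_sq _ _)) hu, add_zero]
  | succ j ih => rw [seq, seq, ih, mul_add, sq_mul_sq hA (seq_mem _ _ _) hu, add_zero]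

lemma pi_idem (hA : InV A) (x y : A) (π : A →ₙₐ[k] A) (hx : π x = x + uu x y)
    (hy : π y = vv x y) : π (uu x y) = 0 ∧ π (vv x y) = vv x y := by
  have hu := uu_mem x y
  have hv := vv_mem x y
  have hxx : π (x * x) = x * x + uu x y * x := by
    rw [map_mul, hx, add_mul, mul_add, mul_add, x_uu hA, sq_mul_sq hA hu hu]
    abel
  have hyx : π (y * x) = vv x y * x := by
    rw [map_mul, hx, hy, mul_add, sq_mul_sq hA hv hu, add_zero]
  have hr : ∀ j, π (seq x (x * x) j) = seq x (x * x) j - seq x (x * x) (j + 6)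
      + seq x (y * x) (j + 3) + seq x (y * x) (j + 4) := by
    intro j
    rw [map_seq, hx, hxx, seq_shift hA x hu (add_mem (mul_mem_sq _ _) (mul_mem_sq _ _))]
    induction j with
    | zero =>
      have h0 : x * (uu x y * x) = 0 := by rw [← comm_sq hA x x hu, x_uu hA, zero_mul]
      rw [seq, mul_add x, h0, add_zero]
      simp only [uu, seq, add_mul, neg_mul]
      abel
    | succ j ih =>
      rw [seq, ih]
      simp only [add_mul, sub_mul]
      rfl
  have hs : ∀ j, π (seq x (y * x) j) = seq x (x * x) (j + 3) - seq x (x * x) (j + 4)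
      + seq x (x * x) (j + 5) - seq x (x * x) (j + 6) + seq x (x * x) (j + 7)
      - seq x (x * x) (j + 8) + seq x (y * x) (j + 6) := by
    intro j
    rw [map_seq, hx, hyx, seq_shift hA x hu (mul_mem_sq _ _)]
    induction j with
    | zero =>
      have h0 : x * (vv x y * x) = 0 := by rw [← comm_sq hA x x hv, x_vv hA, zero_mul]
      rw [seq, h0, zero_add]
      simp only [vv, seq, add_mul, sub_mul]
    | succ j ih =>
      rw [seq, ih]
      simp only [add_mul, sub_mul]
      rfl
  constructor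
  · simp only [uu, map_add, map_neg, hr, hs]
    abel
  · conv_lhs => simp only [vv, map_add, map_sub, hr, hs]
    simp only [vv]
    abel

end General

section Model

variable (k : Type) [CommRing k]

/-- The model `k e ⊕ k[t]²`. -/
def D : Type := k × k[X] × k[X]

noncomputable instance : AddCommGroup (D k) := inferInstanceAs (AddCommGroup (k × k[X] × k[X]))
noncomputable instance : Module k (D k) := inferInstanceAs (Module k (k × k[X] × k[X]))

noncomputable instance : Mul (D k) := ⟨fun p q =>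
  (0, C (p.1 * q.1) + C p.1 * X * q.2.1, C (p.1 * q.1) * (1 + X) + C q.1 * X * p.2.2)⟩

variable {k}

lemma D.ext' {p q : D k} (h1 : p.1 = q.1) (h2 : p.2.1 = q.2.1) (h3 : p.2.2 = q.2.2) : p = q :=
  Prod.ext h1 (Prod.ext h2 h3)

@[simp] lemma mul1 (p q : D k) : (p * q).1 = 0 := rfl
@[simp] lemma mul2 (p q : D k) : (p * q).2.1 = C (p.1 * q.1) + C p.1 * X * q.2.1 := rfl
@[simp] lemma mul3 (p q : D k) :
    (p * q).2.2 = C (p.1 * q.1) * (1 + X) + C q.1 * X * p.2.2 := rfl
@[simp] lemma add1 (p q : D k) : (p + q).1 = p.1 + q.1 := rfl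
@[simp] lemma add2 (p q : D k) : (p + q).2.1 = p.2.1 + q.2.1 := rfl
@[simp] lemma add3 (p q : D k) : (p + q).2.2 = p.2.2 + q.2.2 := rfl
@[simp] lemma neg1 (p : D k) : (-p).1 = -p.1 := rfl
@[simp] lemma neg2 (p : D k) : (-p).2.1 = -p.2.1 := rfl
@[simp] lemma neg3 (p : D k) : (-p).2.2 = -p.2.2 := rfl
@[simp] lemma sub1 (p q : D k) : (p - q).1 = p.1 - q.1 := rfl
@[simp] lemma sub2 (p q : D k) : (p - q).2.1 = p.2.1 - q.2.1 := rfl
@[simp] lemma sub3 (p q : D k) : (p - q).2.2 = p.2.2 - q.2.2 := rfl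
@[simp] lemma zero1 : (0 : D k).1 = 0 := rfl
@[simp] lemma zero2 : (0 : D k).2.1 = 0 := rfl
@[simp] lemma zero3 : (0 : D k).2.2 = 0 := rfl
@[simp] lemma smul1 (c : k) (p : D k) : (c • p).1 = c * p.1 := rfl
@[simp] lemma smul2 (c : k) (p : D k) : (c • p).2.1 = C c * p.2.1 := smul_eq_C_mul c
@[simp] lemma smul3 (c : k) (p : D k) : (c • p).2.2 = C c * p.2.2 := smul_eq_C_mul c

noncomputable instance : NonUnitalNonAssocRing (D k) :=
  { (inferInstance : AddCommGroup (D k)), (inferInstance : Mul (D k)) with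
    left_distrib := fun a b c => by
      apply D.ext' <;> simp only [mul1, mul2, mul3, add1, add2, add3, C_mul, C_add] <;> ring
    right_distrib := fun a b c => by
      apply D.ext' <;> simp only [mul1, mul2, mul3, add1, add2, add3, C_mul, C_add] <;> ring
    zero_mul := fun a => by apply D.ext' <;> simp
    mul_zero := fun a => by apply D.ext' <;> simp }

instance : IsScalarTower k (D k) (D k) := ⟨fun c a b => by
  rw [smul_eq_mul, smul_eq_mul]
  apply D.ext' <;> simp only [mul1, mul2, mul3, smul1, smul2, smul3, C_mul] <;> ring⟩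

instance : SMulCommClass k (D k) (D k) := ⟨fun c a b => by
  rw [smul_eq_mul, smul_eq_mul]
  apply D.ext' <;> simp only [mul1, mul2, mul3, smul1, smul2, smul3, C_mul] <;> ring⟩

lemma d_inV : InV (D k) := by
  refine ⟨fun x y z w => ?_, fun a b u v => ?_, fun a b u v => ?_⟩
  · apply D.ext' <;> simp
  · apply D.ext' <;> simp
  · apply D.ext' <;> simp

/-- The image of the first generator. -/
noncomputable def de : D k := (1, 0, 0)

/-- The image of the second generator. -/
noncomputable def dv : D k := (0, 0, X ^ 2)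

@[simp] lemma de1 : (de : D k).1 = 1 := rfl
@[simp] lemma de2 : (de : D k).2.1 = 0 := rfl
@[simp] lemma de3 : (de : D k).2.2 = 0 := rfl
@[simp] lemma dv1 : (dv : D k).1 = 0 := rfl
@[simp] lemma dv2 : (dv : D k).2.1 = 0 := rfl
@[simp] lemma dv3 : (dv : D k).2.2 = X ^ 2 := rfl

lemma d_uu : uu (de : D k) dv = 0 := by
  apply D.ext' <;> simp [uu, seq]
  ring

lemma d_vv : vv (de : D k) dv = dv := by
  apply D.ext' <;> simp [vv, seq]
  ring

/-- Elements whose two polynomials have the same constant term. -/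
def S0 : NonUnitalSubalgebra k (D k) where
  carrier := {p | p.2.1.coeff 0 = p.2.2.coeff 0}
  add_mem' := fun {a b} ha hb => by
    simp only [Set.mem_setOf_eq, add2, add3, coeff_add] at *
    rw [ha, hb]
  zero_mem' := by simp
  mul_mem' := fun {a b} _ _ => by
    simp [mul_assoc, mul_add]
  smul_mem' := fun c a ha => by
    simp only [Set.mem_setOf_eq, smul2, smul3, coeff_C_mul] at *
    rw [ha]

/-- An upper bound for the subalgebra generated by `c`. -/
def T (c : D k) : NonUnitalSubalgebra k (D k) where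
  carrier := {p | ∃ (m : k) (s1 s2 : k[X]), p.1 = m * c.1 ∧
    p.2.1 = C m * c.2.1 + s1 * (c * c).2.1 ∧ p.2.2 = C m * c.2.2 + s2 * (c * c).2.2}
  add_mem' := by
    rintro a b ⟨m, s1, s2, h1, h2, h3⟩ ⟨n, t1, t2, g1, g2, g3⟩
    refine ⟨m + n, s1 + t1, s2 + t2, ?_, ?_, ?_⟩
    · rw [add1, h1, g1]; ring
    · rw [add2, h2, g2, C_add]; ring
    · rw [add3, h3, g3, C_add]; ring
  zero_mem' := ⟨0, 0, 0, by simp, by simp, by simp⟩
  mul_mem' := by
    rintro a b ⟨m, s1, s2, h1, h2, h3⟩ ⟨n, t1, t2, g1, g2, g3⟩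
    refine ⟨0, C (m * n) + C (m * c.1) * X * t1, C (m * n) + C (n * c.1) * X * s2,
      by simp, ?_, ?_⟩
    · rw [mul2, h1, g1, g2]; simp only [mul2, C_mul, C_0]; ring
    · rw [mul3, h1, g1, h3]; simp only [mul3, C_mul, C_0]; ring
  smul_mem' := by
    rintro r a ⟨m, s1, s2, h1, h2, h3⟩
    refine ⟨r * m, C r * s1, C r * s2, ?_, ?_, ?_⟩
    · rw [smul1, h1]; ring
    · rw [smul2, h2, C_mul]; ring
    · rw [smul3, h3, C_mul]; ring

lemma self_mem_T (c : D k) : c ∈ T c := ⟨1, 0, 0, by simp, by simp, by simp⟩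

lemma coeff_one_zero [IsDomain k] {g s : k[X]} (h : X ^ 2 = s * g) (h0 : g.coeff 0 ≠ 0) :
    g.coeff 1 = 0 := by
  have hX : ¬ (X : k[X]) ∣ g := by rwa [X_dvd_iff]
  have hd : (X : k[X]) ^ 2 ∣ s :=
    prime_X.pow_dvd_of_dvd_mul_right 2 hX (by rw [← h])
  obtain ⟨s', rfl⟩ := hd
  have h1 : s' * g = 1 := by
    have hX2 : (X : k[X]) ^ 2 ≠ 0 := pow_ne_zero _ X_ne_zero
    apply mul_left_cancel₀ hX2
    rw [← mul_assoc, ← h, mul_one]
  have hu : IsUnit g := IsUnit.of_mul_eq_one_right _ h1
  apply coeff_eq_zero_of_natDegree_lt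
  rw [natDegree_eq_zero_of_isUnit hu]
  exact zero_lt_one

lemma not_cyclic [IsDomain k] (c : D k) (hc : c ∈ S0) (he : de ∈ T c) (hv : dv ∈ T c) : False := by
  have hc0 : c.1 ≠ 0 := by
    obtain ⟨m, -, -, h1, -⟩ := he
    intro h
    rw [h] at h1
    simp at h1
  have hc' : c.2.1.coeff 0 = c.2.2.coeff 0 := hc
  have hee := mul_mem he he
  have hz : ∀ p : D k, p ∈ T c → p.1 = 0 → ∃ s1 s2 : k[X], p.2.1 = s1 * (c * c).2.1 ∧
      p.2.2 = s2 * (c * c).2.2 := by
    rintro p ⟨m, s1, s2, h1, h2, h3⟩ hp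
    have hm : m = 0 := by
      rw [hp] at h1
      exact (mul_eq_zero.1 h1.symm).resolve_right hc0
    subst hm
    exact ⟨s1, s2, by simpa using h2, by simpa using h3⟩
  obtain ⟨s1, -, h1, -⟩ := hz _ (mul_mem he (mul_mem he hee)) rfl
  obtain ⟨-, s2, -, h2⟩ := hz _ hv rfl
  have hcc : c.1 * c.1 ≠ 0 := mul_ne_zero hc0 hc0
  have e1 := coeff_one_zero (g := (c * c).2.1) (s := s1) (by rw [← h1]; simp; ring)
    (by simpa [mul_assoc] using hc0)
  have e2 := coeff_one_zero (g := (c * c).2.2) (s := s2) (by rw [← h2]; simp)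
    (by simpa [mul_assoc, mul_add] using hc0)
  simp only [mul2, mul3, mul_assoc, mul_add, coeff_add, coeff_C_mul, coeff_X_mul, mul_one,
    coeff_C, coeff_X_one] at e1 e2
  simp only [one_ne_zero, if_false, zero_add] at e1 e2
  rw [← hc', e1, add_zero] at e2
  exact hcc e2

end Model

theorem result (k : Type) [CommRing k] [IsDomain k] :
    ∃ (F : Type) (_ : NonUnitalNonAssocRing F) (_ : Module k F) (_ : IsScalarTower k F F)
      (_ : SMulCommClass k F F), IsVFree k F ∧ ∃ π : F →ₙₐ[k] F, (∀ a, π (π a) = π a) ∧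
        ¬ IsVFree k (NonUnitalAlgHom.range π) := by
  classical
  let F := FV k Bool
  let ι : Bool → F := fun b => mk k Bool (FreeNonUnitalNonAssocAlgebra.of k b)
  have hF : IsFreeOn k F ι := fv_free k Bool
  set x := ι true with hxdef
  set y := ι false with hydef
  obtain ⟨π, hπ, -⟩ := hF.2 F hF.1 (fun b => cond b (x + uu x y) (vv x y))
  have hx : π x = x + uu x y := hπ true
  have hy : π y = vv x y := hπ false
  obtain ⟨hu, hv⟩ := pi_idem hF.1 x y π hx hy
  have hidem : ∀ a, π (π a) = π a := by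
    obtain ⟨ψ, -, hψ⟩ := hF.2 F hF.1 (fun b => π (ι b))
    have h1 := hψ (π.comp π) (by
      rintro (_ | _)
      · show π (π y) = π y
        rw [hy, hv]
      · show π (π x) = π x
        rw [hx, map_add, hu, add_zero, hx])
    have h2 := hψ π (fun _ => rfl)
    intro a
    exact DFunLike.congr_fun (h1.trans h2.symm) a
  refine ⟨F, inferInstance, inferInstance, inferInstance, inferInstance, ⟨Bool, ι, hF⟩, π, hidem, ?_⟩
  rintro ⟨Y, j, hB⟩
  -- the map to the model
  obtain ⟨φ, hφ, hφu⟩ := hF.2 (D k) d_inV (fun b => cond b de dv)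
  have φx : φ x = de := hφ true
  have φy : φ y = dv := hφ false
  have φu : φ (uu x y) = 0 := by
    rw [← d_uu]
    simp only [uu, map_add, map_neg, map_seq, map_mul, φx, φy]
  have φv : φ (vv x y) = dv := by
    rw [← d_vv]
    simp only [vv, map_add, map_sub, map_seq, map_mul, φx, φy]
  let p : F →ₙₐ[k] NonUnitalAlgHom.range π := NonUnitalAlgHom.rangeRestrict π
  have hp : ∀ b : NonUnitalAlgHom.range π, p b = b := by
    rintro ⟨b, a, rfl⟩
    exact Subtype.ext (hidem a)
  have hS0 : ∀ a : F, φ a ∈ S0 := by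
    intro a
    apply gen_top hF (S0.comap φ)
    rintro (_ | _)
    · show φ y ∈ S0
      rw [φy]
      show (dv : D k).2.1.coeff 0 = (dv : D k).2.2.coeff 0
      simp
    · show φ x ∈ S0
      rw [φx]
      show (de : D k).2.1.coeff 0 = (de : D k).2.2.coeff 0
      simp
  by_cases hY : ∃ y1 y2 : Y, y1 ≠ y2
  · obtain ⟨y1, y2, hne⟩ := hY
    obtain ⟨ψ1, h1, -⟩ := hB.2 (D k) d_inV (fun z => if z = y1 then de else 0)
    obtain ⟨ψ2, h2, -⟩ := hB.2 (D k) d_inV (fun z => if z = y2 then de else 0)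
    have hsq : ∀ (χ : F →ₙₐ[k] D k) (w : F), w ∈ Sq F → (χ w).1 = 0 := by
      intro χ w hw
      induction hw using AddSubgroup.closure_induction with
      | mem z hz =>
        obtain ⟨a, b, rfl⟩ := hz
        rw [map_mul, mul1]
      | zero => simp
      | add a b _ _ ha hb => rw [map_add, add1, ha, hb, add_zero]
      | neg a _ ha => rw [map_neg, neg1, ha, neg_zero]
    have hpy : p y = p (vv x y) := Subtype.ext (by
      show π y = π (vv x y)
      rw [hy, hv])
    have hy0 : ∀ ψ : NonUnitalAlgHom.range π →ₙₐ[k] D k, (ψ (p y)).1 = 0 := by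
      intro ψ
      rw [hpy]
      exact hsq (ψ.comp p) _ (vv_mem x y)
    -- every value is a multiple of the value at `x`
    let S : NonUnitalSubalgebra k F :=
      { carrier := {a | ∃ m : k, (ψ1 (p a)).1 = m * (ψ1 (p x)).1 ∧ (ψ2 (p a)).1 = m * (ψ2 (p x)).1}
        add_mem' := by
          rintro a b ⟨m, a1, a2⟩ ⟨n, b1, b2⟩
          refine ⟨m + n, ?_, ?_⟩
          · rw [map_add, map_add, add1, a1, b1]; ring
          · rw [map_add, map_add, add1, a2, b2]; ring
        zero_mem' := ⟨0, by simp, by simp⟩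
        mul_mem' := by
          rintro a b - -
          exact ⟨0, by simp, by simp⟩
        smul_mem' := by
          rintro c a ⟨m, a1, a2⟩
          refine ⟨c * m, ?_, ?_⟩
          · rw [map_smul, map_smul, smul1, a1]; ring
          · rw [map_smul, map_smul, smul1, a2]; ring }
    have hS : ∀ a : F, a ∈ S := by
      intro a
      apply gen_top hF S
      rintro (_ | _)
      · exact ⟨0, by rw [zero_mul]; exact hy0 ψ1, by rw [zero_mul]; exact hy0 ψ2⟩
      · exact ⟨1, by rw [one_mul], by rw [one_mul]⟩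
    obtain ⟨m, a1, a2⟩ := hS (j y1)
    obtain ⟨n, b1, b2⟩ := hS (j y2)
    rw [hp, h1] at a1 b1
    rw [hp, h2] at a2 b2
    simp only [if_true, hne, hne.symm, if_false, de1, zero1] at a1 a2 b1 b2
    have : (1 : k) = 0 := by
      calc (1 : k) = (m * (ψ1 (p x)).1) * (n * (ψ2 (p x)).1) := by rw [← a1, ← b2, one_mul]
        _ = (m * (ψ2 (p x)).1) * (n * (ψ1 (p x)).1) := by ring
        _ = 0 := by rw [← a2, zero_mul]
    exact one_ne_zero this
  · push Not at hY
    obtain ⟨b, hb⟩ : ∃ b : NonUnitalAlgHom.range π, ∀ z, j z = b := by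
      by_cases hne : Nonempty Y
      · obtain ⟨z0⟩ := hne
        exact ⟨j z0, fun z => by rw [hY z z0]⟩
      · exact ⟨0, fun z => (hne ⟨z⟩).elim⟩
    let φB := φ.comp (NonUnitalSubalgebraClass.subtype (NonUnitalAlgHom.range π))
    have hT : ∀ a : NonUnitalAlgHom.range π, φ a ∈ T (φ b) := by
      intro a
      apply gen_top hB ((T (φ b)).comap φB)
      intro z
      rw [hb z]
      exact self_mem_T _
    apply not_cyclic (φ b) (hS0 b)
    · have := hT (p x)
      have e : φ (p x : F) = de := by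
        show φ (π x) = de
        rw [hx, map_add, φx, φu, add_zero]
      rwa [e] at this
    · have := hT (p y)
      have e : φ (p y : F) = dv := by
        show φ (π y) = dv
        rw [hy, φv]
      rwa [e] at this

end Pool.Agent.Results.MP_ce47b3_al.NotFree
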